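import Pool.Agent.U926.SF.ParDefs
import Pool.Agent.U926.SF.Ret

/-!
# Weil-etale motivic cohomology of hypersurfaces `g_0 + ⋯ + g_r = 0`

Let `F` be a finite field, and let `g_0, …, g_r` be nonsingular forms of degree `d ≥ 2` in separate
sets of variables over the algebraic closure of `F`, `d` prime to the characteristic:

* `d = 3`: cubic forms in at most three variables each;
* `d = 4`: quartic forms in at most two variables each;
* `d ∣ 24`, `d ≠ 24` (`d = 2, 3, 4, 6, 8, 12`): forms in one variable each (Fermat hypersurfaces).

There is no restriction on the number of the forms, so the dimension of the hypersurface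
`X : g_0 + ⋯ + g_r = 0` is arbitrary.

**Theorem.** Let `X₀` be a variety over a finite extension of `F` which becomes isomorphic to `X` over
the algebraic closure. Then the groups `H^i_W(X₀, ℤ(n))` are finitely generated for all `i` and `n`,
i.e. the conjecture `L^n(X₀)` holds for all `n`. The same is true for all products of such
hypersurfaces (of any degrees) with elliptic curves and all other varieties which are built from
products of elliptic curves, and for every variety which is built from such products: for example for
the coverings `w ^ m = F(x)` of the projective space, `m` a divisor of `d`, for quotients and images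
under generically finite morphisms, for the blow-ups of such products in such products, and for
projective bundles over them.

Known: products of elliptic curves (Kahn, Geisser, by the theorem of Spiess).

The known theorems which are used:

* the formal properties of the Chow groups (`IsChowProj`), and of the Weil-etale cohomology
  (`IsWeilEtaleTheory`: action of correspondences, finiteness of the `N`-torsion);
* `hT`, the theorem of Katsura and Shioda: `f(x) + g(y) = 0` is dominated by the product of
  `f(x) + z ^ d = 0` and `g(y) + w ^ d = 0`, blown up in the product of `f(x) = 0` and `g(y) = 0`;
* `hM`: the motives of plane cubic curves, of cubic surfaces, of the plane curves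
  `f(x, y) + z ^ 4 = 0` and of the Fermat curves of the degrees `d ∣ 24`, `d ≠ 24`, are direct
  summands of motives of products of elliptic curves;
* `hE`: the conjecture for products of elliptic curves (Spiess, Kahn, Geisser).
-/

universe u v

namespace Pool.Agent.Results.MP_cb388a_ag.SumsOfForms

open Pool.Agent.H914 Pool.Agent.W492.BB Pool.Agent.TH133 Pool.Agent.U926.SF

/-- **Finite generation of the Weil-etale motivic cohomology** of the hypersurfaces
`g_0 + ⋯ + g_r = 0` with equations in separate sets of variables, of their products with varieties
built from products of elliptic curves, and of all varieties which are built from these products. -/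
theorem result {F : Type u} [Field F] [Finite F] {𝒱 : VarClass (AlgebraicClosure F)}
    {C : TheoryData.{u, v, 0} 𝒱 ℚ} [IsChowProj C] (T : Hypersurfaces 𝒱)
    (hT : ∀ d : ℕ, 2 ≤ d → (d : AlgebraicClosure F) ≠ 0 → IsKatsuraShioda C T d)
    (hM : HaveEllipticMotives C T) (W : ModelGroups F 𝒱 (ℤ × ℤ)) (hW : IsWeilEtaleTheory C W)
    (hE : ∀ Y : 𝒱.Obj, IsEllipticProduct Y → Lichtenbaum W Y) (X : 𝒱.Obj)
    (hX : IsBuiltFrom C (IsEllipticSum C T) X) : Lichtenbaum W X := fun m i n =>
  hW.retracts.finite hW.torsion (fun Y hY m i => hE Y hY m i.1 i.2)
    (hX.trans fun _ hY => hY.isBuiltFrom hT hM) m (i, n)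

end Pool.Agent.Results.MP_cb388a_ag.SumsOfForms
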